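import Mathlib

set_option autoImplicit false

/-!
# Homogeneity does not force an order: the group of the generic boron tree

We construct an infinite permutation group `G` that is `5`-homogeneous and `3`-transitive but not
`4`-transitive and that preserves no linear order, no circular order and no converse pair of such
orders. So for `r = 3` the condition of `(r + 2)`-homogeneity cannot replace homogeneity of all
degrees in the theorem of Cameron and Higman.

The points are `∞` and the finite sets of rational numbers. A ball consists of the finite sets which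
agree with a given one on a given upper set of rational numbers. `G` is the group of all
permutations which permute the set of all balls and their complements.
-/

namespace Pool.Agent.Results.MP_deb208_al.BoronTree

open Set Equiv

/-! ### The notions of the problem -/

/-- `G` is `t`-homogeneous: it acts transitively on the `t`-element subsets. -/
def Homogeneous {X : Type} (G : Subgroup (Perm X)) (t : ℕ) : Prop :=
  ∀ A B : Finset X, A.card = t → B.card = t → ∃ g ∈ G, g '' (A : Set X) = (B : Set X)

/-- `G` is `t`-transitive: it acts transitively on the `t`-tuples of distinct elements. -/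
def Transitive {X : Type} (G : Subgroup (Perm X)) (t : ℕ) : Prop :=
  ∀ a b : Fin t → X, Function.Injective a → Function.Injective b →
    ∃ g ∈ G, ∀ i, g (a i) = b i

/-- `lt` is a linear order (a strict total order) -/
structure IsLinearOrder {X : Type} (lt : X → X → Prop) : Prop where
  irrefl : ∀ x, ¬ lt x x
  trans : ∀ x y z, lt x y → lt y z → lt x z
  total : ∀ x y, x ≠ y → lt x y ∨ lt y x

/-- `C` is a circular order -/
structure IsCircularOrder {X : Type} (C : X → X → X → Prop) : Prop where
  cyc : ∀ x y z, C x y z → C y z x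
  asymm : ∀ x y z, C x y z → ¬ C z y x
  trans : ∀ x y z w, C x y z → C x z w → C x y w
  total : ∀ x y z, x ≠ y → y ≠ z → x ≠ z → C x y z ∨ C z y x

/-- every element of `G` maps the binary relation `lt` to itself or to its converse -/
def PreservesPair2 {X : Type} (G : Subgroup (Perm X)) (lt : X → X → Prop) : Prop :=
  ∀ g ∈ G, (∀ x y, lt (g x) (g y) ↔ lt x y) ∨ (∀ x y, lt (g x) (g y) ↔ lt y x)

/-- every element of `G` maps the ternary relation `C` to itself or to its converse -/
def PreservesPair3 {X : Type} (G : Subgroup (Perm X)) (C : X → X → X → Prop) : Prop :=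
  ∀ g ∈ G, (∀ x y z, C (g x) (g y) (g z) ↔ C x y z) ∨
    (∀ x y z, C (g x) (g y) (g z) ↔ C z y x)

/-! ### Balls -/

/-- the finite sets of rational numbers -/
abbrev P : Type := Finset ℚ

/-- `f` and `g` agree on `U` -/
def Agree (U : Set ℚ) (f g : P) : Prop := ∀ p ∈ U, (p ∈ f ↔ p ∈ g)

/-- the balls -/
def Ball (S : Set P) : Prop := ∃ (f : P) (U : Set ℚ), IsUpperSet U ∧ S = {g | Agree U f g}

lemma Agree.symm {U : Set ℚ} {f g : P} (h : Agree U f g) : Agree U g f :=
  fun p hp => (h p hp).symm

lemma Agree.trans {U : Set ℚ} {f g k : P} (h : Agree U f g) (h' : Agree U g k) : Agree U f k :=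
  fun p hp => (h p hp).trans (h' p hp)

lemma Agree.mono {U V : Set ℚ} {f g : P} (h : Agree V f g) (hUV : U ⊆ V) : Agree U f g :=
  fun p hp => h p (hUV hp)

lemma ball_aux {f h : P} {U V : Set ℚ} (hUV : U ⊆ V) :
    {g | Agree V h g} ⊆ {g | Agree U f g} ∨ Disjoint {g | Agree U f g} {g | Agree V h g} := by
  by_cases hfh : Agree U f h
  · left
    intro g hg
    exact hfh.trans (Agree.mono hg hUV)
  · right
    rw [Set.disjoint_left]
    intro g hg hg'
    exact hfh (Agree.trans hg (Agree.mono hg' hUV).symm)

lemma laminar {S T : Set P} (hS : Ball S) (hT : Ball T) : S ⊆ T ∨ T ⊆ S ∨ Disjoint S T := by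
  obtain ⟨f, U, hU, rfl⟩ := hS
  obtain ⟨h, V, hV, rfl⟩ := hT
  rcases hU.total hV with hUV | hUV
  · rcases ball_aux (f := f) (h := h) hUV with h1 | h1
    · exact Or.inr (Or.inl h1)
    · exact Or.inr (Or.inr h1)
  · rcases ball_aux (f := h) (h := f) hUV with h1 | h1
    · exact Or.inl h1
    · exact Or.inr (Or.inr h1.symm)

/-! ### Permutations which preserve the balls -/

/-- preimages of balls are balls -/
def BP (e : Perm P) : Prop := ∀ S, Ball S → Ball (e ⁻¹' S)

/-- the permutations of `P` which preserve the set of balls -/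
def H : Subgroup (Perm P) where
  carrier := {e | BP e ∧ BP e.symm}
  mul_mem' := by
    rintro a b ⟨ha, ha'⟩ ⟨hb, hb'⟩
    exact ⟨fun S hS => hb _ (ha _ hS), fun S hS => ha' _ (hb' _ hS)⟩
  one_mem' := ⟨fun S hS => hS, fun S hS => hS⟩
  inv_mem' := by
    rintro a ⟨ha, ha'⟩
    exact ⟨ha', ha⟩

/-- translation by `h` -/
def tr (h : P) : Perm P where
  toFun f := symmDiff f h
  invFun f := symmDiff f h
  left_inv f := symmDiff_symmDiff_cancel_right h f
  right_inv f := symmDiff_symmDiff_cancel_right h f

lemma tr_apply (h f : P) : tr h f = symmDiff f h := rfl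

lemma agree_tr {U : Set ℚ} (f g h : P) : Agree U f (symmDiff g h) ↔ Agree U (symmDiff f h) g := by
  unfold Agree
  refine forall₂_congr fun p _ => ?_
  simp only [Finset.mem_symmDiff]
  tauto

lemma tr_BP (h : P) : BP (tr h) := by
  rintro S ⟨f, U, hU, rfl⟩
  refine ⟨symmDiff f h, U, hU, ?_⟩
  ext g
  simp only [mem_preimage, mem_ofPred_eq, tr_apply]
  exact agree_tr f g h

lemma tr_mem (h : P) : tr h ∈ H := ⟨tr_BP h, tr_BP h⟩

/-- the permutation of `P` given by an order automorphism of `ℚ` -/
def om (φ : ℚ ≃o ℚ) : Perm P := φ.toEquiv.finsetCongr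

lemma mem_om (φ : ℚ ≃o ℚ) (f : P) (p : ℚ) : p ∈ om φ f ↔ φ.symm p ∈ f := by
  unfold om
  rw [Equiv.finsetCongr_apply, Finset.mem_map]
  constructor
  · rintro ⟨a, ha, rfl⟩
    simpa using ha
  · intro h
    exact ⟨_, h, by simp⟩

lemma om_symm (φ : ℚ ≃o ℚ) : (om φ).symm = om φ.symm := by
  apply Equiv.ext
  intro f
  unfold om
  rw [Equiv.finsetCongr_symm]
  rfl

lemma om_BP (φ : ℚ ≃o ℚ) : BP (om φ) := by
  rintro S ⟨f, U, hU, rfl⟩
  refine ⟨om φ.symm f, φ ⁻¹' U, fun a b hab ha => hU (φ.monotone hab) ha, ?_⟩
  ext g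
  simp only [mem_preimage, mem_ofPred_eq]
  constructor
  · intro h p hp
    have := h (φ p) hp
    rw [mem_om] at this ⊢
    simpa using this
  · intro h p hp
    have := h (φ.symm p) (by simpa using hp)
    rw [mem_om] at this ⊢
    simpa using this

lemma om_mem (φ : ℚ ≃o ℚ) : om φ ∈ H := by
  refine ⟨om_BP φ, ?_⟩
  rw [om_symm]
  exact om_BP φ.symm

open Classical in
/-- the permutation which acts as `e` on the invariant set `B` and fixes all other points -/
noncomputable def loc (e : Perm P) (B : Set P) (hB : ∀ x, x ∈ B ↔ e x ∈ B) : Perm P where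
  toFun x := if x ∈ B then e x else x
  invFun x := if x ∈ B then e.symm x else x
  left_inv x := by
    by_cases hx : x ∈ B
    · simp [hx, (hB x).1 hx]
    · simp [hx]
  right_inv x := by
    by_cases hx : x ∈ B
    · have : e.symm x ∈ B := by rw [hB]; simpa using hx
      simp [hx, this]
    · simp [hx]

lemma loc_of_mem {e : Perm P} {B : Set P} (hB : ∀ x, x ∈ B ↔ e x ∈ B) {x : P} (hx : x ∈ B) :
    loc e B hB x = e x := by
  simp [loc, hx]

lemma loc_of_notMem {e : Perm P} {B : Set P} (hB : ∀ x, x ∈ B ↔ e x ∈ B) {x : P} (hx : x ∉ B) :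
    loc e B hB x = x := by
  simp [loc, hx]

lemma loc_symm {e : Perm P} {B : Set P} (hB : ∀ x, x ∈ B ↔ e x ∈ B) :
    (loc e B hB).symm = loc e.symm B (fun x => by rw [hB (e.symm x)]; simp) := by
  apply Equiv.ext
  intro x
  by_cases hx : x ∈ B
  · simp [loc, hx]
  · simp [loc, hx]

lemma loc_BP {e : Perm P} {B : Set P} (hB : ∀ x, x ∈ B ↔ e x ∈ B) (hBall : Ball B)
    (he : BP e) : BP (loc e B hB) := by
  intro S hS
  rcases laminar hS hBall with h | h | h
  · have : loc e B hB ⁻¹' S = e ⁻¹' S := by
      ext x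
      simp only [mem_preimage]
      by_cases hx : x ∈ B
      · rw [loc_of_mem hB hx]
      · rw [loc_of_notMem hB hx]
        exact ⟨fun h1 => absurd (h h1) hx, fun h1 => absurd ((hB x).2 (h h1)) hx⟩
    rw [this]
    exact he S hS
  · have : loc e B hB ⁻¹' S = S := by
      ext x
      simp only [mem_preimage]
      by_cases hx : x ∈ B
      · rw [loc_of_mem hB hx]
        exact ⟨fun _ => h hx, fun _ => h ((hB x).1 hx)⟩
      · rw [loc_of_notMem hB hx]
    rw [this]
    exact hS
  · have : loc e B hB ⁻¹' S = S := by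
      ext x
      simp only [mem_preimage]
      by_cases hx : x ∈ B
      · rw [loc_of_mem hB hx]
        exact ⟨fun h1 => absurd ((hB x).1 hx) (Set.disjoint_left.1 h h1),
          fun h1 => absurd hx (Set.disjoint_left.1 h h1)⟩
      · rw [loc_of_notMem hB hx]
    rw [this]
    exact hS

lemma loc_mem {e : Perm P} {B : Set P} (hB : ∀ x, x ∈ B ↔ e x ∈ B) (hBall : Ball B)
    (he : e ∈ H) : loc e B hB ∈ H := by
  refine ⟨loc_BP hB hBall he.1, ?_⟩
  rw [loc_symm]
  exact loc_BP _ hBall he.2

/-! ### The points and the group -/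

/-- the points: `none` is the point at infinity -/
abbrev Pt : Type := Option P

/-- the balls and their complements -/
def Split (S : Set Pt) : Prop := ∃ C : Set P, Ball C ∧ (S = some '' C ∨ S = (some '' C)ᶜ)

/-- preimages of splits are splits -/
def SP (e : Perm Pt) : Prop := ∀ S, Split S → Split (e ⁻¹' S)

/-- the group of all permutations of the points which permute the balls and their complements -/
def G : Subgroup (Perm Pt) where
  carrier := {e | SP e ∧ SP e.symm}
  mul_mem' := by
    rintro a b ⟨ha, ha'⟩ ⟨hb, hb'⟩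
    exact ⟨fun S hS => hb _ (ha _ hS), fun S hS => ha' _ (hb' _ hS)⟩
  one_mem' := ⟨fun S hS => hS, fun S hS => hS⟩
  inv_mem' := by
    rintro a ⟨ha, ha'⟩
    exact ⟨ha', ha⟩

lemma Split.compl {S : Set Pt} (h : Split S) : Split Sᶜ := by
  obtain ⟨C, hC, rfl | rfl⟩ := h
  · exact ⟨C, hC, Or.inr rfl⟩
  · exact ⟨C, hC, Or.inl (by rw [compl_compl])⟩

lemma SP_of_ball {e : Perm Pt} (h : ∀ C, Ball C → Split (e ⁻¹' (some '' C))) : SP e := by
  rintro S ⟨C, hC, rfl | rfl⟩
  · exact h C hC
  · rw [preimage_compl]
    exact (h C hC).compl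

/-- two splits do not separate four points in two different ways -/
lemma split_laminar {S T : Set Pt} (hS : Split S) (hT : Split T) {a b c d : Pt}
    (ha : a ∈ S ∧ a ∈ T) (hb : b ∈ S ∧ b ∉ T) (hc : c ∉ S ∧ c ∈ T) (hd : d ∉ S ∧ d ∉ T) :
    False := by
  obtain ⟨C, hC, hSC⟩ := hS
  obtain ⟨D, hD, hTD⟩ := hT
  have inj : Function.Injective (some : P → Pt) := Option.some_injective _
  have key : ∀ x : Pt, (∀ y : Pt, y ∈ some '' C → y ∈ some '' D) ∨
      (∀ y : Pt, y ∈ some '' D → y ∈ some '' C) ∨
      (∀ y : Pt, y ∈ some '' C → y ∉ some '' D) := by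
    intro _
    rcases laminar hC hD with h | h | h
    · exact Or.inl fun y hy => image_mono h hy
    · exact Or.inr (Or.inl fun y hy => image_mono h hy)
    · refine Or.inr (Or.inr fun y hy hy' => ?_)
      obtain ⟨u, hu, rfl⟩ := hy
      obtain ⟨v, hv, hvu⟩ := hy'
      rw [inj hvu] at hv
      exact Set.disjoint_left.1 h hu hv
  have k := key none
  rcases hSC with rfl | rfl <;> rcases hTD with rfl | rfl <;>
    (try simp only [mem_compl_iff, not_not] at ha hb hc hd) <;>
    rcases k with k | k | k
  · exact hb.2 (k _ hb.1)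
  · exact hc.1 (k _ hc.2)
  · exact k _ ha.1 ha.2
  · exact ha.2 (k _ ha.1)
  · exact hd.1 (k _ hd.2)
  · exact k _ hb.1 hb.2
  · exact hd.2 (k _ hd.1)
  · exact ha.1 (k _ ha.2)
  · exact k _ hc.1 hc.2
  · exact hc.2 (k _ hc.1)
  · exact hb.1 (k _ hb.2)
  · exact k _ hd.1 hd.2

lemma lift_mem {e : Perm P} (he : e ∈ H) : Equiv.optionCongr e ∈ G := by
  have main : ∀ e : Perm P, BP e → SP (Equiv.optionCongr e) := by
    intro e he
    apply SP_of_ball
    intro C hC
    refine ⟨e ⁻¹' C, he C hC, Or.inl ?_⟩
    ext x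
    cases x with
    | none => simp
    | some f => simp
  refine ⟨main e he.1, ?_⟩
  rw [← Equiv.optionCongr_symm]
  exact main _ he.2

/-! ### The inversion, which exchanges `∞` and the empty set -/

/-- the largest element of a nonempty finite set -/
noncomputable def top (f : P) : ℚ := if h : f.Nonempty then f.max' h else 0

lemma top_mem {f : P} (h : f.Nonempty) : top f ∈ f := by
  unfold top
  rw [dif_pos h]
  exact f.max'_mem h

lemma le_top {f : P} {p : ℚ} (hp : p ∈ f) : p ≤ top f := by
  unfold top
  rw [dif_pos ⟨p, hp⟩]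
  exact f.le_max' p hp

lemma top_eq {f : P} {q : ℚ} (hq : q ∈ f) (h : ∀ p, q < p → p ∉ f) : top f = q := by
  apply le_antisymm _ (le_top hq)
  by_contra hlt
  exact h _ (not_le.1 hlt) (top_mem ⟨q, hq⟩)

/-- shift a nonempty finite set so that its largest element changes its sign -/
noncomputable def inv0 (f : P) : P := f.map (Equiv.subRight (2 * top f)).toEmbedding

lemma mem_inv0 (f : P) (p : ℚ) : p ∈ inv0 f ↔ p + 2 * top f ∈ f := by
  unfold inv0
  rw [Finset.mem_map]
  constructor
  · rintro ⟨a, ha, rfl⟩
    simpa using ha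
  · intro h
    exact ⟨_, h, by simp⟩

lemma inv0_nonempty {f : P} (h : f.Nonempty) : (inv0 f).Nonempty :=
  ⟨-top f, by rw [mem_inv0]; convert top_mem h using 1; ring⟩

lemma top_inv0 {f : P} (h : f.Nonempty) : top (inv0 f) = -top f := by
  apply top_eq
  · rw [mem_inv0]; convert top_mem h using 1; ring
  · intro p hp hp'
    rw [mem_inv0] at hp'
    have := le_top hp'
    linarith

lemma inv0_inv0 {f : P} (h : f.Nonempty) : inv0 (inv0 f) = f := by
  ext p
  rw [mem_inv0, mem_inv0, top_inv0 h]
  ring_nf

/-- the inversion as a map -/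
noncomputable def invFun : Pt → Pt
  | none => some ∅
  | some f => if f = ∅ then none else some (inv0 f)

lemma invFun_invFun (x : Pt) : invFun (invFun x) = x := by
  cases x with
  | none => simp [invFun]
  | some f =>
    by_cases hf : f = ∅
    · simp [invFun, hf]
    · have hf' := Finset.nonempty_iff_ne_empty.2 hf
      have h2 : inv0 f ≠ ∅ := Finset.nonempty_iff_ne_empty.1 (inv0_nonempty hf')
      simp [invFun, hf, h2, inv0_inv0 hf']

/-- the inversion -/
noncomputable def inversion : Perm Pt := Function.Involutive.toPerm invFun invFun_invFun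

lemma inversion_none : inversion none = some ∅ := rfl

lemma inversion_empty : inversion (some ∅) = none := by
  change invFun (some ∅) = none
  simp [invFun]

lemma inversion_some {f : P} (h : f.Nonempty) : inversion (some f) = some (inv0 f) := by
  change invFun (some f) = _
  simp [invFun, Finset.nonempty_iff_ne_empty.1 h]

lemma inversion_symm : inversion.symm = inversion := rfl

lemma inversion_SP : SP inversion := by
  apply SP_of_ball
  rintro C ⟨f, U, hU, rfl⟩
  by_cases hfU : ∃ p ∈ U, p ∈ f
  · -- the ball does not contain the empty set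
    obtain ⟨p, hpU, hpf⟩ := hfU
    have hf : f.Nonempty := ⟨p, hpf⟩
    have hqU : top f ∈ U := hU (le_top hpf) hpU
    refine ⟨{g | Agree {x | x + 2 * top f ∈ U} (inv0 f) g},
      ⟨inv0 f, {x | x + 2 * top f ∈ U}, ?_, rfl⟩, Or.inl ?_⟩
    · intro a b hab ha
      exact hU (by linarith : a + 2 * top f ≤ b + 2 * top f) ha
    · have hmem : -top f ∈ {x : ℚ | x + 2 * top f ∈ U} := by
        change -top f + 2 * top f ∈ U
        convert hqU using 1
        ring
      ext x
      cases x with
      | none =>
        rw [mem_preimage, inversion_none]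
        constructor
        · rintro ⟨g, hg, hg'⟩
          rw [Option.some_injective _ hg'] at hg
          exact absurd ((hg p hpU).1 hpf) (Finset.notMem_empty p)
        · rintro ⟨g, _, hg⟩
          exact absurd hg (by simp)
      | some g =>
        rcases Finset.eq_empty_or_nonempty g with rfl | hg
        · rw [mem_preimage, inversion_empty]
          constructor
          · rintro ⟨k, _, hk⟩
            exact absurd hk (by simp)
          · rintro ⟨k, hk, hk'⟩
            rw [Option.some_injective _ hk'] at hk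
            have h1 := (hk _ hmem).1 (by rw [← top_inv0 hf]; exact top_mem (inv0_nonempty hf))
            exact absurd h1 (Finset.notMem_empty _)
        · rw [mem_preimage, inversion_some hg]
          have e1 : (some (inv0 g) ∈ some '' {g | Agree U f g}) ↔ Agree U f (inv0 g) := by
            constructor
            · rintro ⟨k, hk, hk'⟩
              rw [← Option.some_injective _ hk']
              exact hk
            · intro h
              exact ⟨_, h, rfl⟩
          have e2 : (some g ∈ some '' {g | Agree {x | x + 2 * top f ∈ U} (inv0 f) g}) ↔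
              Agree {x | x + 2 * top f ∈ U} (inv0 f) g := by
            constructor
            · rintro ⟨k, hk, hk'⟩
              rw [← Option.some_injective _ hk']
              exact hk
            · intro h
              exact ⟨_, h, rfl⟩
          rw [e1, e2]
          constructor
          · intro h
            have ht : top (inv0 g) = top f := by
              apply top_eq
              · exact (h _ hqU).1 (top_mem hf)
              · intro r hr hr'
                have hrU : r ∈ U := hU hr.le hqU
                have := le_top ((h r hrU).2 hr')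
                linarith
            have htg : top g = -top f := by
              rw [top_inv0 hg] at ht
              linarith
            intro r hr
            change r + 2 * top f ∈ U at hr
            rw [mem_inv0, h _ hr, mem_inv0, htg]
            ring_nf
          · intro h
            have htg : top g = -top f := by
              apply top_eq
              · apply (h _ hmem).1
                rw [← top_inv0 hf]
                exact top_mem (inv0_nonempty hf)
              · intro r hr hr'
                have hrU : r ∈ {x : ℚ | x + 2 * top f ∈ U} :=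
                  hU (by linarith : top f ≤ r + 2 * top f) hqU
                have h1 := (h r hrU).2 hr'
                have := le_top h1
                rw [top_inv0 hf] at this
                linarith
            intro r hr
            have hrU : r - 2 * top f ∈ {x : ℚ | x + 2 * top f ∈ U} := by
              change r - 2 * top f + 2 * top f ∈ U
              convert hr using 1
              ring
            rw [mem_inv0, htg]
            have h1 := h _ hrU
            rw [mem_inv0] at h1
            rw [show r - 2 * top f + 2 * top f = r by ring] at h1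
            rw [h1]
            ring_nf
  · -- the ball contains the empty set
    push Not at hfU
    have hball : {g | Agree U f g} = {g : P | ∀ p ∈ U, p ∉ g} := by
      ext g
      constructor
      · intro h p hp hpg
        exact hfU p hp ((h p hp).2 hpg)
      · intro h p hp
        exact ⟨fun h1 => absurd h1 (hfU p hp), fun h1 => absurd h1 (h p hp)⟩
    rw [hball]
    have hup : IsUpperSet {p : ℚ | -p ∉ U} := by
      intro a b hab ha hb
      exact ha (hU (by linarith : -b ≤ -a) hb)
    refine ⟨{g | Agree {p : ℚ | -p ∉ U} ∅ g}, ⟨∅, _, hup, rfl⟩, Or.inr ?_⟩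
    rw [← compl_inj_iff, compl_compl, ← preimage_compl]
    ext x
    cases x with
    | none =>
      rw [mem_preimage, inversion_none]
      constructor
      · intro h
        exact absurd ⟨∅, fun p _ => Finset.notMem_empty p, rfl⟩ h
      · rintro ⟨g, _, hg⟩
        exact absurd hg (by simp)
    | some g =>
      rcases Finset.eq_empty_or_nonempty g with rfl | hg
      · rw [mem_preimage, inversion_empty]
        constructor
        · intro _
          exact ⟨∅, fun p _ => Iff.rfl, rfl⟩
        · rintro _ ⟨k, _, hk⟩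
          exact absurd hk (by simp)
      · rw [mem_preimage, inversion_some hg]
        constructor
        · intro h
          refine ⟨g, fun p hp => ⟨fun h1 => absurd h1 (Finset.notMem_empty p), fun h1 => ?_⟩, rfl⟩
          exfalso
          apply h
          refine ⟨inv0 g, fun r hr hr' => hp ?_, rfl⟩
          have h2 := le_top hr'
          rw [top_inv0 hg] at h2
          have h3 := le_top h1
          exact hU (by linarith : r ≤ -p) hr
        · rintro ⟨k, hk, hk'⟩ ⟨l, hl, hl'⟩
          rw [Option.some_injective _ hk'] at hk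
          rw [Option.some_injective _ hl'] at hl
          have h1 : -top g ∉ U := by
            intro h2
            apply hl _ h2
            rw [← top_inv0 hg]
            exact top_mem (inv0_nonempty hg)
          exact absurd ((hk _ h1).2 (top_mem hg)) (Finset.notMem_empty _)

lemma inversion_mem : inversion ∈ G := ⟨inversion_SP, inversion_SP⟩

/-! ### Normal forms of small sets -/

lemma tr_inv (h f : P) : tr h (tr h f) = f := symmDiff_symmDiff_cancel_right h f

/-- a local translation which removes the elements below `q` of `x` -/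
lemma kill (x : P) (q : ℚ) : ∃ e ∈ H, e x = x.filter (fun p => q ≤ p) ∧
    (∀ y, Agree (Ici q) x y → e y = symmDiff y (x.filter (fun p => p < q))) ∧
    ∀ y, ¬ Agree (Ici q) x y → e y = y := by
  set h : P := x.filter (fun p => p < q) with hh
  have hB : ∀ y, y ∈ {y | Agree (Ici q) x y} ↔ tr h y ∈ {y | Agree (Ici q) x y} := by
    intro y
    simp only [mem_ofPred_eq, tr_apply]
    refine forall₂_congr fun p hp => ?_
    have : p ∉ h := by
      rw [hh, Finset.mem_filter]
      exact fun h1 => absurd h1.2 (not_lt.2 hp)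
    simp only [Finset.mem_symmDiff]
    tauto
  have hball : Ball {y | Agree (Ici q) x y} := ⟨x, Ici q, isUpperSet_Ici q, rfl⟩
  refine ⟨loc (tr h) _ hB, loc_mem hB hball (tr_mem h), ?_, ?_, ?_⟩
  · rw [loc_of_mem hB (fun p _ => Iff.rfl : Agree (Ici q) x x), tr_apply]
    ext p
    simp only [hh, Finset.mem_symmDiff, Finset.mem_filter, ← not_lt]
    tauto
  · intro y hy
    rw [loc_of_mem hB hy, tr_apply]
  · intro y hy
    exact loc_of_notMem hB hy

/-- the affine order automorphism `x ↦ x s + t` -/
def aff (s t : ℚ) (hs : 0 < s) : ℚ ≃o ℚ :=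
  (OrderIso.mulRight₀ s hs).trans (OrderIso.addRight t)

lemma aff_apply (s t : ℚ) (hs : 0 < s) (x : ℚ) : aff s t hs x = x * s + t := rfl

lemma om_empty (φ : ℚ ≃o ℚ) : om φ ∅ = ∅ := by
  ext p; rw [mem_om]; simp

lemma om_singleton (φ : ℚ ≃o ℚ) (a : ℚ) : om φ {a} = {φ a} := by
  ext p
  rw [mem_om, Finset.mem_singleton, Finset.mem_singleton, OrderIso.symm_apply_eq]

lemma om_pair (φ : ℚ ≃o ℚ) (a b : ℚ) : om φ {a, b} = {φ a, φ b} := by
  ext p
  rw [mem_om]
  simp only [Finset.mem_insert, Finset.mem_singleton, OrderIso.symm_apply_eq]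

/-- a local scaling with centre `1` -/
lemma scale (c : P) (hc : c ⊆ {1}) (u : ℚ) (hu : u < 1) : ∃ e ∈ H,
    (∃ φ : ℚ ≃o ℚ, φ 1 = 1 ∧ φ u = 0 ∧ ∀ y, Agree (Ici 1) c y → e y = om φ y) ∧
    ∀ y, ¬ Agree (Ici 1) c y → e y = y := by
  have hs : (0 : ℚ) < 1 / (1 - u) := by
    apply one_div_pos.2; linarith
  set φ : ℚ ≃o ℚ := aff (1 / (1 - u)) (1 - 1 / (1 - u)) hs with hφ
  have h1 : φ 1 = 1 := by rw [hφ, aff_apply]; ring
  have hu' : (1 - u) ≠ 0 := by linarith
  have h0 : φ u = 0 := by rw [hφ, aff_apply]; field_simp; ring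
  have hs1 : φ.symm 1 = 1 := by rw [OrderIso.symm_apply_eq, h1]
  have hge : ∀ p, 1 ≤ p → 1 ≤ φ p := fun p hp => by
    rw [← h1]; exact φ.monotone hp
  have hge' : ∀ p, 1 ≤ p → 1 ≤ φ.symm p := fun p hp => by
    rw [← hs1]; exact φ.symm.monotone hp
  have hcφ : ∀ p, φ p ∈ c ↔ p ∈ c := by
    intro p
    constructor
    · intro h
      have h2 := Finset.mem_singleton.1 (hc h)
      have h3 : p = 1 := φ.injective (by rw [h2, h1])
      rw [h2] at h
      rwa [h3]
    · intro h
      have h2 := Finset.mem_singleton.1 (hc h)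
      rw [h2] at h
      rwa [h2, h1]
  have hB : ∀ y, y ∈ {y | Agree (Ici 1) c y} ↔ om φ y ∈ {y | Agree (Ici 1) c y} := by
    intro y
    simp only [mem_ofPred_eq]
    constructor
    · intro h p hp
      rw [mem_om, ← h _ (hge' p hp), ← hcφ (φ.symm p)]
      simp
    · intro h p hp
      have h2 := h _ (hge p hp)
      rw [mem_om, hcφ] at h2
      simpa using h2
  have hball : Ball {y | Agree (Ici 1) c y} := ⟨c, Ici 1, isUpperSet_Ici 1, rfl⟩
  refine ⟨loc (om φ) _ hB, loc_mem hB hball (om_mem φ), ⟨φ, h1, h0, ?_⟩, ?_⟩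
  · intro y hy
    exact loc_of_mem hB hy
  · intro y hy
    exact loc_of_notMem hB hy

/-- `q` is the largest rational number at which `x` and `y` differ -/
def Diff (q : ℚ) (x y : P) : Prop := ¬ (q ∈ x ↔ q ∈ y) ∧ ∀ p, q < p → (p ∈ x ↔ p ∈ y)

lemma Diff.symm {q : ℚ} {x y : P} (h : Diff q x y) : Diff q y x :=
  ⟨fun h1 => h.1 h1.symm, fun p hp => (h.2 p hp).symm⟩

lemma Diff.tr {q : ℚ} {x y : P} (h : Diff q x y) (k : P) : Diff q (symmDiff x k) (symmDiff y k) := by
  refine ⟨fun h1 => h.1 ?_, fun p hp => ?_⟩
  · simp only [Finset.mem_symmDiff] at h1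
    tauto
  · have := h.2 p hp
    simp only [Finset.mem_symmDiff]
    tauto

lemma diff_empty {q : ℚ} {y : P} (h : Diff q ∅ y) : q ∈ y ∧ ∀ p, q < p → p ∉ y := by
  refine ⟨?_, fun p hp h1 => ?_⟩
  · by_contra h1
    exact h.1 ⟨fun h2 => absurd h2 (Finset.notMem_empty _), fun h2 => absurd h2 h1⟩
  · exact absurd ((h.2 p hp).2 h1) (Finset.notMem_empty _)

/-- the largest rational number at which `x` and `y` differ -/
noncomputable def lev (x y : P) : ℚ := top (symmDiff x y)

lemma diff_lev {x y : P} (h : x ≠ y) : Diff (lev x y) x y := by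
  have hne : (symmDiff x y).Nonempty := by
    rw [Finset.nonempty_iff_ne_empty]
    intro h1
    exact h (symmDiff_eq_bot.1 h1)
  have h1 := top_mem hne
  refine ⟨?_, fun p hp => ?_⟩
  · rw [Finset.mem_symmDiff] at h1
    unfold lev
    tauto
  · by_contra h2
    have h3 : p ∈ symmDiff x y := by
      rw [Finset.mem_symmDiff]
      tauto
    exact absurd (le_top h3) (not_le.2 hp)

lemma lev_of_diff {q : ℚ} {x y : P} (h : Diff q x y) : lev x y = q := by
  apply top_eq
  · have := h.1
    rw [Finset.mem_symmDiff]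
    tauto
  · intro p hp h1
    have := h.2 p hp
    rw [Finset.mem_symmDiff] at h1
    tauto

lemma lev_lt {q : ℚ} {x y z : P} (hxy : Diff q x y) (hxz : Diff q x z) (hyz : y ≠ z) :
    lev y z < q := by
  have h := diff_lev hyz
  by_contra hlt
  rcases (not_lt.1 hlt).eq_or_lt with h1 | h1
  · have h2 := h.1
    rw [← h1] at h2
    have := hxy.1
    have := hxz.1
    tauto
  · have h2 := h.1
    have h3 := hxy.2 _ h1
    have h4 := hxz.2 _ h1
    tauto

lemma filter_eq_singleton {q : ℚ} {y : P} (h : q ∈ y ∧ ∀ p, q < p → p ∉ y) :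
    y.filter (fun p => q ≤ p) = {q} := by
  ext p
  rw [Finset.mem_filter, Finset.mem_singleton]
  constructor
  · rintro ⟨h1, h2⟩
    rcases h2.eq_or_lt with h3 | h3
    · exact h3.symm
    · exact absurd h1 (h.2 p h3)
  · rintro rfl
    exact ⟨h.1, le_rfl⟩

/-- four points with a balanced tree -/
lemma normal_balanced {a b c d : P} {q r s : ℚ} (hb : Diff q a b) (hc : Diff r a c)
    (hd : Diff s c d) (hqr : q < r) (hsr : s < r) :
    ∃ e ∈ H, e a = ∅ ∧ e b = {0} ∧ e c = {1} ∧ e d = {1, 0} := by
  -- the first point becomes the empty set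
  have hb1 := hb.tr a
  have hc1 := hc.tr a
  have hd1 := hd.tr a
  rw [symmDiff_self, Finset.bot_eq_empty] at hb1 hc1
  have ea : tr a a = ∅ := by rw [tr_apply, symmDiff_self, Finset.bot_eq_empty]
  set b1 := symmDiff b a with hb1'
  set c1 := symmDiff c a with hc1'
  set d1 := symmDiff d a with hd1'
  obtain ⟨hb2, hb3⟩ := diff_empty hb1
  obtain ⟨hc2, hc3⟩ := diff_empty hc1
  -- the third point becomes `{r}`
  obtain ⟨e2, he2, he2c, he2in, he2out⟩ := kill c1 r
  have e2a : e2 ∅ = ∅ := he2out _ (fun h => absurd ((h r (mem_Ici.2 le_rfl)).1 hc2)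
    (Finset.notMem_empty _))
  have e2b : e2 b1 = b1 := he2out _ (fun h => hb3 r hqr ((h r (mem_Ici.2 le_rfl)).1 hc2))
  have e2c : e2 c1 = {r} := by rw [he2c, filter_eq_singleton ⟨hc2, hc3⟩]
  have e2d : Diff s {r} (e2 d1) := by
    rw [← e2c, he2in c1 (fun p _ => Iff.rfl),
      he2in d1 (fun p hp => hd1.2 p (lt_of_lt_of_le hsr hp))]
    exact hd1.tr _
  set d2 := e2 d1 with hd2
  have hrd2 : r ∈ d2 := (e2d.2 r hsr).1 (Finset.mem_singleton_self r)
  have hsd2 : s ∈ d2 := by
    by_contra h
    exact e2d.1 ⟨fun h1 => absurd (Finset.mem_singleton.1 h1) hsr.ne, fun h1 => absurd h1 h⟩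
  -- the second point becomes `{q}`
  obtain ⟨e3, he3, he3b, -, he3out⟩ := kill b1 q
  have e3a : e3 ∅ = ∅ := he3out _ (fun h => absurd ((h q (mem_Ici.2 le_rfl)).1 hb2)
    (Finset.notMem_empty _))
  have e3b : e3 b1 = {q} := by rw [he3b, filter_eq_singleton ⟨hb2, hb3⟩]
  have e3c : e3 {r} = {r} := he3out _ (fun h => hb3 r hqr
    ((h r (mem_Ici.2 hqr.le)).2 (Finset.mem_singleton_self r)))
  have e3d : e3 d2 = d2 := he3out _ (fun h => hb3 r hqr ((h r (mem_Ici.2 hqr.le)).2 hrd2))
  -- the fourth point becomes `{r, s}`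
  obtain ⟨e4, he4, he4d, -, he4out⟩ := kill d2 s
  have e4a : e4 ∅ = ∅ := he4out _ (fun h => absurd ((h s (mem_Ici.2 le_rfl)).1 hsd2)
    (Finset.notMem_empty _))
  have e4b : e4 {q} = {q} := he4out _ (fun h => absurd
    (Finset.mem_singleton.1 ((h r (mem_Ici.2 hsr.le)).1 hrd2)) hqr.ne')
  have e4c : e4 {r} = {r} := he4out _ (fun h => absurd
    (Finset.mem_singleton.1 ((h s (mem_Ici.2 le_rfl)).1 hsd2)) hsr.ne)
  have e4d : e4 d2 = {r, s} := by
    rw [he4d]
    ext p
    rw [Finset.mem_filter, Finset.mem_insert, Finset.mem_singleton]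
    constructor
    · rintro ⟨h1, h2⟩
      rcases h2.eq_or_lt with h3 | h3
      · exact Or.inr h3.symm
      · exact Or.inl (Finset.mem_singleton.1 ((e2d.2 p h3).2 h1))
    · rintro (rfl | rfl)
      · exact ⟨hrd2, hsr.le⟩
      · exact ⟨hsd2, le_rfl⟩
  -- the affine map with `q ↦ 0` and `r ↦ 1`
  have hrq : (0 : ℚ) < 1 / (r - q) := one_div_pos.2 (by linarith)
  set φ : ℚ ≃o ℚ := aff (1 / (r - q)) (-q / (r - q)) hrq with hφ
  have hrq' : r - q ≠ 0 := by linarith
  have φq : φ q = 0 := by rw [hφ, aff_apply]; field_simp; ring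
  have φr : φ r = 1 := by rw [hφ, aff_apply]; field_simp; ring
  have φs : φ s < 1 := by rw [← φr]; exact φ.strictMono hsr
  -- the local scaling
  obtain ⟨e6, he6, ⟨ψ, hψ1, hψu, he6in⟩, he6out⟩ := scale {1} (Finset.Subset.refl _) (φ s) φs
  have i1 : Agree (Ici (1 : ℚ)) {1} {1, φ s} := by
    intro p hp
    rw [Finset.mem_insert, Finset.mem_singleton, Finset.mem_singleton]
    exact ⟨Or.inl, fun h => h.resolve_right (fun h1 => absurd hp (by rw [h1]; exact not_le.2 φs))⟩
  refine ⟨e6 * om φ * e4 * e3 * e2 * tr a, H.mul_mem (H.mul_mem (H.mul_mem (H.mul_mem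
    (H.mul_mem he6 (om_mem φ)) he4) he3) he2) (tr_mem a), ?_, ?_, ?_, ?_⟩
  · change e6 (om φ (e4 (e3 (e2 (tr a a))))) = _
    rw [ea, e2a, e3a, e4a, om_empty]
    exact he6out _ (fun h => absurd ((h 1 (mem_Ici.2 le_rfl)).1 (Finset.mem_singleton_self _))
      (Finset.notMem_empty _))
  · change e6 (om φ (e4 (e3 (e2 b1)))) = _
    rw [e2b, e3b, e4b, om_singleton, φq]
    exact he6out _ (fun h => absurd (Finset.mem_singleton.1
      ((h 1 (mem_Ici.2 le_rfl)).1 (Finset.mem_singleton_self _))) one_ne_zero)
  · change e6 (om φ (e4 (e3 (e2 c1)))) = _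
    rw [e2c, e3c, e4c, om_singleton, φr, he6in _ (fun p _ => Iff.rfl), om_singleton, hψ1]
  · change e6 (om φ (e4 (e3 d2))) = _
    rw [e3d, e4d, om_pair, φr, he6in _ i1, om_pair, hψ1, hψu]

/-- four points with a caterpillar tree -/
lemma normal_caterpillar {a b c d : P} {q r s : ℚ} (hb : Diff q a b) (hc : Diff r a c)
    (hd : Diff s a d) (hqr : q < r) (hrs : r < s) :
    ∃ e ∈ H, e a = ∅ ∧ e b = {0} ∧ e c = {1} ∧ e d = {2} := by
  have hqs := hqr.trans hrs
  have hb1 := hb.tr a
  have hc1 := hc.tr a
  have hd1 := hd.tr a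
  rw [symmDiff_self, Finset.bot_eq_empty] at hb1 hc1 hd1
  have ea : tr a a = ∅ := by rw [tr_apply, symmDiff_self, Finset.bot_eq_empty]
  set b1 := symmDiff b a with hb1'
  set c1 := symmDiff c a with hc1'
  set d1 := symmDiff d a with hd1'
  obtain ⟨hb2, hb3⟩ := diff_empty hb1
  obtain ⟨hc2, hc3⟩ := diff_empty hc1
  obtain ⟨hd2, hd3⟩ := diff_empty hd1
  obtain ⟨e2, he2, he2b, -, he2out⟩ := kill b1 q
  have e2a : e2 ∅ = ∅ := he2out _ (fun h => absurd ((h q (mem_Ici.2 le_rfl)).1 hb2)
    (Finset.notMem_empty _))
  have e2b : e2 b1 = {q} := by rw [he2b, filter_eq_singleton ⟨hb2, hb3⟩]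
  have e2c : e2 c1 = c1 := he2out _ (fun h => hb3 r hqr ((h r (mem_Ici.2 hqr.le)).2 hc2))
  have e2d : e2 d1 = d1 := he2out _ (fun h => hb3 s hqs ((h s (mem_Ici.2 hqs.le)).2 hd2))
  obtain ⟨e3, he3, he3c, -, he3out⟩ := kill c1 r
  have e3a : e3 ∅ = ∅ := he3out _ (fun h => absurd ((h r (mem_Ici.2 le_rfl)).1 hc2)
    (Finset.notMem_empty _))
  have e3b : e3 {q} = {q} := he3out _ (fun h => absurd
    (Finset.mem_singleton.1 ((h r (mem_Ici.2 le_rfl)).1 hc2)) hqr.ne')
  have e3c : e3 c1 = {r} := by rw [he3c, filter_eq_singleton ⟨hc2, hc3⟩]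
  have e3d : e3 d1 = d1 := he3out _ (fun h => hc3 s hrs ((h s (mem_Ici.2 hrs.le)).2 hd2))
  obtain ⟨e4, he4, he4d, -, he4out⟩ := kill d1 s
  have e4a : e4 ∅ = ∅ := he4out _ (fun h => absurd ((h s (mem_Ici.2 le_rfl)).1 hd2)
    (Finset.notMem_empty _))
  have e4b : e4 {q} = {q} := he4out _ (fun h => absurd
    (Finset.mem_singleton.1 ((h s (mem_Ici.2 le_rfl)).1 hd2)) hqs.ne')
  have e4c : e4 {r} = {r} := he4out _ (fun h => absurd
    (Finset.mem_singleton.1 ((h s (mem_Ici.2 le_rfl)).1 hd2)) hrs.ne')
  have e4d : e4 d1 = {s} := by rw [he4d, filter_eq_singleton ⟨hd2, hd3⟩]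
  have hsr0 : (0 : ℚ) < 1 / (s - r) := one_div_pos.2 (by linarith)
  set φ : ℚ ≃o ℚ := aff (1 / (s - r)) (1 - r / (s - r)) hsr0 with hφ
  have hsr' : s - r ≠ 0 := by linarith
  have φr : φ r = 1 := by rw [hφ, aff_apply]; ring
  have φs : φ s = 2 := by rw [hφ, aff_apply]; field_simp; ring
  have φq : φ q < 1 := by rw [← φr]; exact φ.strictMono hqr
  obtain ⟨e6, he6, ⟨ψ, hψ1, hψu, he6in⟩, he6out⟩ := scale ∅ (Finset.empty_subset _) (φ q) φq
  have i1 : Agree (Ici (1 : ℚ)) ∅ {φ q} := by
    intro p hp
    rw [Finset.mem_singleton]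
    exact ⟨fun h => absurd h (Finset.notMem_empty _),
      fun h1 => absurd hp (by rw [h1]; exact not_le.2 φq)⟩
  refine ⟨e6 * om φ * e4 * e3 * e2 * tr a, H.mul_mem (H.mul_mem (H.mul_mem (H.mul_mem
    (H.mul_mem he6 (om_mem φ)) he4) he3) he2) (tr_mem a), ?_, ?_, ?_, ?_⟩
  · change e6 (om φ (e4 (e3 (e2 (tr a a))))) = _
    rw [ea, e2a, e3a, e4a, om_empty, he6in _ (fun p _ => Iff.rfl), om_empty]
  · change e6 (om φ (e4 (e3 (e2 b1)))) = _
    rw [e2b, e3b, e4b, om_singleton, he6in _ i1, om_singleton, hψu]
  · change e6 (om φ (e4 (e3 (e2 c1)))) = _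
    rw [e2c, e3c, e4c, om_singleton, φr]
    exact he6out _ (fun h => absurd ((h 1 (mem_Ici.2 le_rfl)).2 (Finset.mem_singleton_self _))
      (Finset.notMem_empty _))
  · change e6 (om φ (e4 (e3 (e2 d1)))) = _
    rw [e2d, e3d, e4d, om_singleton, φs]
    exact he6out _ (fun h => absurd ((h 2 (mem_Ici.2 one_le_two)).2 (Finset.mem_singleton_self _))
      (Finset.notMem_empty _))

/-- the two normal forms of the four-element sets of finite sets of rational numbers -/
lemma four_sets (F : Finset P) (hF : F.card = 4) :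
    (∃ e ∈ H, e '' (F : Set P) = {∅, {0}, {1}, {1, 0}}) ∨
      (∃ e ∈ H, e '' (F : Set P) = {∅, {0}, {1}, {2}}) := by
  have hne : F.offDiag.Nonempty := by
    rw [← Finset.card_pos, Finset.offDiag_card, hF]
    norm_num
  obtain ⟨⟨a, b⟩, hab, hmin⟩ := F.offDiag.exists_min_image (fun p => lev p.1 p.2) hne
  rw [Finset.mem_offDiag] at hab
  obtain ⟨ha, hb, hab⟩ := hab
  simp only at ha hb hab hmin
  have hmin' : ∀ x ∈ F, ∀ y ∈ F, x ≠ y → lev a b ≤ lev x y := fun x hx y hy hxy =>
    hmin (x, y) (Finset.mem_offDiag.2 ⟨hx, hy, hxy⟩)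
  have h2 : ((F.erase a).erase b).card = 2 := by
    rw [Finset.card_erase_of_mem (Finset.mem_erase.2 ⟨hab.symm, hb⟩),
      Finset.card_erase_of_mem ha, hF]
  obtain ⟨c, d, hcd, hcd'⟩ := Finset.card_eq_two.1 h2
  have hFe : F = {a, b, c, d} := by
    rw [← Finset.insert_erase ha, ← Finset.insert_erase (Finset.mem_erase.2 ⟨hab.symm, hb⟩), hcd']
  have hc : c ∈ (F.erase a).erase b := by rw [hcd']; simp
  have hd : d ∈ (F.erase a).erase b := by rw [hcd']; simp
  simp only [Finset.mem_erase] at hc hd
  obtain ⟨hcb, hca, hcF⟩ := hc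
  obtain ⟨hdb, hda, hdF⟩ := hd
  have low : ∀ x ∈ F, x ≠ a → x ≠ b → lev a b < lev a x := by
    intro x hx hxa hxb
    rcases (hmin' a ha x hx hxa.symm).eq_or_lt with h | h
    · exfalso
      have h1 := diff_lev hab
      have h3 := diff_lev hxa.symm
      rw [← h] at h3
      exact absurd (lev_lt h1 h3 hxb.symm) (not_lt.2 (hmin' b hb x hx hxb.symm))
    · exact h
  have h1 := low c hcF hca hcb
  have h3 := low d hdF hda hdb
  rcases lt_trichotomy (lev a c) (lev a d) with h | h | h
  · right
    obtain ⟨e, he, ea, eb, ec, ed⟩ :=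
      normal_caterpillar (diff_lev hab) (diff_lev hca.symm) (diff_lev hda.symm) h1 h
    refine ⟨e, he, ?_⟩
    rw [hFe]
    simp only [Finset.coe_insert, Finset.coe_singleton, image_insert_eq, image_singleton,
      ea, eb, ec, ed]
  · left
    have h4 := diff_lev hda.symm
    rw [← h] at h4
    obtain ⟨e, he, ea, eb, ec, ed⟩ :=
      normal_balanced (diff_lev hab) (diff_lev hca.symm) (diff_lev hcd) h1
        (lev_lt (diff_lev hca.symm) h4 hcd)
    refine ⟨e, he, ?_⟩
    rw [hFe]
    simp only [Finset.coe_insert, Finset.coe_singleton, image_insert_eq, image_singleton,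
      ea, eb, ec, ed]
  · right
    obtain ⟨e, he, ea, eb, ec, ed⟩ :=
      normal_caterpillar (diff_lev hab) (diff_lev hda.symm) (diff_lev hca.symm) h3 h
    refine ⟨e, he, ?_⟩
    rw [hFe]
    simp only [Finset.coe_insert, Finset.coe_singleton, image_insert_eq, image_singleton,
      ea, eb, ec, ed]
    rw [show ({({2} : P), {1}} : Set P) = {{1}, {2}} from Set.pair_comm _ _]

/-- the group is transitive: every point can be moved to infinity -/
lemma to_none (x : Pt) : ∃ g ∈ G, g x = none := by
  cases x with
  | none => exact ⟨1, G.one_mem, rfl⟩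
  | some f =>
    refine ⟨inversion * Equiv.optionCongr (tr f), G.mul_mem inversion_mem (lift_mem (tr_mem f)), ?_⟩
    change inversion (some (tr f f)) = none
    rw [tr_apply, symmDiff_self, Finset.bot_eq_empty, inversion_empty]

/-- the standard five-element set -/
def S0 : Set Pt := {none, some ∅, some {0}, some {1}, some {1, 0}}

lemma image_lift (e : Perm P) (T : Set P) :
    Equiv.optionCongr e '' (insert none (some '' T)) = insert none (some '' (e '' T)) := by
  rw [image_insert_eq, image_image, image_image]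
  rfl

lemma five_sets (A : Finset Pt) (hA : A.card = 5) : ∃ g ∈ G, g '' (A : Set Pt) = S0 := by
  obtain ⟨x, hx⟩ : A.Nonempty := by rw [← Finset.card_pos, hA]; norm_num
  obtain ⟨g1, hg1, hg1x⟩ := to_none x
  set F : Finset P := Finset.eraseNone (A.map g1.toEmbedding) with hFdef
  have hnone : none ∈ A.map g1.toEmbedding := by
    rw [Finset.mem_map]
    exact ⟨x, hx, hg1x⟩
  have hF : F.card = 4 := by
    have h1 : F.map Function.Embedding.some = (A.map g1.toEmbedding).erase none :=
      Finset.map_some_eraseNone _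
    have h2 := congrArg Finset.card h1
    rw [Finset.card_map, Finset.card_erase_of_mem hnone, Finset.card_map, hA] at h2
    exact h2
  have himg : g1 '' (A : Set Pt) = insert none (some '' (F : Set P)) := by
    ext y
    constructor
    · rintro ⟨z, hz, rfl⟩
      rcases h : g1 z with _ | f
      · exact mem_insert _ _
      · right
        refine ⟨f, ?_, rfl⟩
        rw [Finset.mem_coe, hFdef, Finset.mem_eraseNone, Finset.mem_map]
        exact ⟨z, hz, h⟩
    · rintro (rfl | ⟨f, hf, rfl⟩)
      · exact ⟨x, hx, hg1x⟩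
      · rw [Finset.mem_coe, hFdef, Finset.mem_eraseNone, Finset.mem_map] at hf
        obtain ⟨z, hz, hz'⟩ := hf
        exact ⟨z, hz, hz'⟩
  rcases four_sets F hF with ⟨e, he, heF⟩ | ⟨e, he, heF⟩
  · refine ⟨Equiv.optionCongr e * g1, G.mul_mem (lift_mem he) hg1, ?_⟩
    rw [Perm.coe_mul, image_comp, himg, image_lift, heF]
    simp only [image_insert_eq, image_singleton, S0]
  · -- the caterpillar: move its middle point to infinity
    have d1 : Diff (-2) ∅ ({-3, -2} : P) := by
      refine ⟨by simp, fun p hp => ?_⟩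
      simp only [Finset.notMem_empty, Finset.mem_insert, Finset.mem_singleton, false_iff, not_or]
      constructor <;> intro h <;> linarith
    have d2 : Diff (-1) ∅ ({-1} : P) := by
      refine ⟨by simp, fun p hp => ?_⟩
      simp only [Finset.notMem_empty, Finset.mem_singleton, false_iff]
      intro h; linarith
    have d3 : Diff (-2) ({-1} : P) {-2, -1} := by
      refine ⟨by norm_num, fun p hp => ?_⟩
      simp only [Finset.mem_insert, Finset.mem_singleton]
      constructor
      · exact Or.inr
      · rintro (h | h)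
        · exfalso; linarith
        · exact h
    obtain ⟨e', he', ea, eb, ec, ed⟩ :=
      normal_balanced d1 d2 d3 (by norm_num : (-2 : ℚ) < -1) (by norm_num)
    have t0 : tr {1} ∅ = {1} := by
      rw [tr_apply]; ext p; simp [Finset.mem_symmDiff]
    have t1 : tr {1} {0} = ({0, 1} : P) := by
      rw [tr_apply]; ext p
      simp only [Finset.mem_symmDiff, Finset.mem_insert, Finset.mem_singleton]
      constructor
      · rintro (h | h)
        · exact Or.inl h.1
        · exact Or.inr h.1
      · rintro (h | h)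
        · exact Or.inl ⟨h, by rw [h]; norm_num⟩
        · exact Or.inr ⟨h, by rw [h]; norm_num⟩
    have t2 : tr {1} {1} = (∅ : P) := by
      rw [tr_apply, symmDiff_self, Finset.bot_eq_empty]
    have t3 : tr {1} {2} = ({2, 1} : P) := by
      rw [tr_apply]; ext p
      simp only [Finset.mem_symmDiff, Finset.mem_insert, Finset.mem_singleton]
      constructor
      · rintro (h | h)
        · exact Or.inl h.1
        · exact Or.inr h.1
      · rintro (h | h)
        · exact Or.inl ⟨h, by rw [h]; norm_num⟩
        · exact Or.inr ⟨h, by rw [h]; norm_num⟩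
    have i0 : inversion (some {1}) = some {-1} := by
      rw [inversion_some (by simp)]
      congr 1
      have ht : top ({1} : P) = 1 := top_eq (by simp) (fun p hp h => by
        rw [Finset.mem_singleton] at h; linarith)
      ext p
      rw [mem_inv0, ht, Finset.mem_singleton, Finset.mem_singleton]
      constructor <;> intro h <;> linarith
    have i1 : inversion (some {0, 1}) = some {-2, -1} := by
      rw [inversion_some (by simp)]
      congr 1
      have ht : top ({0, 1} : P) = 1 := top_eq (by simp) (fun p hp h => by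
        rw [Finset.mem_insert, Finset.mem_singleton] at h
        rcases h with h | h <;> linarith)
      ext p
      rw [mem_inv0, ht]
      simp only [Finset.mem_insert, Finset.mem_singleton]
      constructor
      · rintro (h | h)
        · left; linarith
        · right; linarith
      · rintro (h | h)
        · left; linarith
        · right; linarith
    have i2 : inversion (some {2, 1}) = some {-3, -2} := by
      rw [inversion_some (by simp)]
      congr 1
      have ht : top ({2, 1} : P) = 2 := top_eq (by simp) (fun p hp h => by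
        rw [Finset.mem_insert, Finset.mem_singleton] at h
        rcases h with h | h <;> linarith)
      ext p
      rw [mem_inv0, ht]
      simp only [Finset.mem_insert, Finset.mem_singleton]
      constructor
      · rintro (h | h)
        · right; linarith
        · left; linarith
      · rintro (h | h)
        · right; linarith
        · left; linarith
    refine ⟨Equiv.optionCongr e' * inversion * Equiv.optionCongr (tr {1}) *
      Equiv.optionCongr e * g1, G.mul_mem (G.mul_mem (G.mul_mem (G.mul_mem (lift_mem he')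
        inversion_mem) (lift_mem (tr_mem _))) (lift_mem he)) hg1, ?_⟩
    rw [Perm.coe_mul, image_comp, himg, Perm.coe_mul, image_comp, image_lift, heF,
      Perm.coe_mul, Perm.coe_mul, image_comp, image_comp]
    simp only [image_insert_eq, image_singleton]
    rw [show Equiv.optionCongr (tr {1}) none = none from rfl,
      show Equiv.optionCongr (tr {1}) (some ∅) = some (tr {1} ∅) from rfl,
      show Equiv.optionCongr (tr {1}) (some {0}) = some (tr {1} {0}) from rfl,
      show Equiv.optionCongr (tr {1}) (some {1}) = some (tr {1} {1}) from rfl,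
      show Equiv.optionCongr (tr {1}) (some {2}) = some (tr {1} {2}) from rfl,
      t0, t1, t2, t3, inversion_none, i0, i1, i2, inversion_empty,
      show Equiv.optionCongr e' none = none from rfl,
      show Equiv.optionCongr e' (some ∅) = some (e' ∅) from rfl,
      show Equiv.optionCongr e' (some {-1}) = some (e' {-1}) from rfl,
      show Equiv.optionCongr e' (some {-2, -1}) = some (e' {-2, -1}) from rfl,
      show Equiv.optionCongr e' (some {-3, -2}) = some (e' {-3, -2}) from rfl,
      ea, eb, ec, ed]
    unfold S0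
    ext y
    simp only [mem_insert_iff, mem_singleton_iff]
    tauto

/-- the normal form of the triples -/
lemma triples (x y z : Pt) (hxy : x ≠ y) (hxz : x ≠ z) (hyz : y ≠ z) :
    ∃ g ∈ G, g x = none ∧ g y = some ∅ ∧ g z = some {0} := by
  obtain ⟨g1, hg1, h1⟩ := to_none x
  have hy1 : g1 y ≠ none := fun h => hxy (g1.injective (h1.trans h.symm))
  have hz1 : g1 z ≠ none := fun h => hxz (g1.injective (h1.trans h.symm))
  obtain ⟨f, hf⟩ := Option.ne_none_iff_exists'.1 hy1
  obtain ⟨k, hk⟩ := Option.ne_none_iff_exists'.1 hz1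
  have hfk : k ≠ f := by
    rintro rfl
    exact hyz (g1.injective (hf.trans hk.symm))
  have hne : (tr f k).Nonempty := by
    rw [Finset.nonempty_iff_ne_empty]
    intro h
    exact hfk (symmDiff_eq_bot.1 h)
  set q := top (tr f k) with hq
  obtain ⟨e2, he2, he2k, -, he2out⟩ := kill (tr f k) q
  have e2a : e2 ∅ = ∅ := he2out _ (fun h => absurd ((h q (mem_Ici.2 le_rfl)).1 (top_mem hne))
    (Finset.notMem_empty _))
  have e2k : e2 (tr f k) = {q} := by
    rw [he2k, filter_eq_singleton ⟨top_mem hne, fun p hp h => absurd (le_top h) (not_le.2 hp)⟩]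
  refine ⟨Equiv.optionCongr (om (aff 1 (-q) one_pos) * e2 * tr f) * g1,
    G.mul_mem (lift_mem (H.mul_mem (H.mul_mem (om_mem _) he2) (tr_mem f))) hg1, ?_, ?_, ?_⟩
  · change Equiv.optionCongr _ (g1 x) = none
    rw [h1]
    rfl
  · change Equiv.optionCongr _ (g1 y) = _
    rw [hf]
    change some (om (aff 1 (-q) one_pos) (e2 (tr f f))) = _
    rw [show tr f f = ∅ by rw [tr_apply, symmDiff_self, Finset.bot_eq_empty], e2a, om_empty]
  · change Equiv.optionCongr _ (g1 z) = _
    rw [hk]
    change some (om (aff 1 (-q) one_pos) (e2 (tr f k))) = _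
    rw [e2k, om_singleton, aff_apply]
    congr 2
    ring

/-- an element of the group which fixes three points and exchanges two points -/
lemma exchange : ∃ g ∈ G, g none = none ∧ g (some {1}) = some {1} ∧ g (some {2}) = some {2} ∧
    g (some ∅) = some {0} ∧ g (some {0}) = some ∅ := by
  have hB : ∀ y, y ∈ {y | Agree (Ici 1) ∅ y} ↔ tr {0} y ∈ {y | Agree (Ici 1) ∅ y} := by
    intro y
    simp only [mem_ofPred_eq, tr_apply]
    refine forall₂_congr fun p hp => ?_
    have : p ∉ ({0} : P) := by
      rw [Finset.mem_singleton]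
      intro h
      rw [h] at hp
      exact absurd hp (by simp)
    simp only [Finset.mem_symmDiff]
    tauto
  have hball : Ball {y | Agree (Ici 1) ∅ y} := ⟨∅, Ici 1, isUpperSet_Ici 1, rfl⟩
  have h0 : Agree (Ici (1 : ℚ)) ∅ {0} := by
    intro p hp
    simp only [Finset.notMem_empty, Finset.mem_singleton, false_iff]
    intro h
    rw [h] at hp
    exact absurd hp (by simp)
  refine ⟨Equiv.optionCongr (loc (tr {0}) _ hB), lift_mem (loc_mem hB hball (tr_mem _)), rfl,
    ?_, ?_, ?_, ?_⟩
  · change some (loc (tr {0}) _ hB {1}) = _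
    rw [loc_of_notMem hB (fun h => absurd ((h 1 (mem_Ici.2 le_rfl)).2
      (Finset.mem_singleton_self _)) (Finset.notMem_empty _))]
  · change some (loc (tr {0}) _ hB {2}) = _
    rw [loc_of_notMem hB (fun h => absurd ((h 2 (mem_Ici.2 one_le_two)).2
      (Finset.mem_singleton_self _)) (Finset.notMem_empty _))]
  · change some (loc (tr {0}) _ hB ∅) = _
    rw [loc_of_mem hB (fun p _ => Iff.rfl : Agree (Ici (1 : ℚ)) ∅ ∅), tr_apply]
    have : symmDiff (∅ : P) {0} = {0} := by
      ext p
      simp [Finset.mem_symmDiff]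
    rw [this]
  · change some (loc (tr {0}) _ hB {0}) = _
    rw [loc_of_mem hB h0, tr_apply, symmDiff_self, Finset.bot_eq_empty]

lemma homogeneous : Homogeneous G 5 := by
  intro A B hA hB
  obtain ⟨g, hg, hgA⟩ := five_sets A hA
  obtain ⟨k, hk, hkB⟩ := five_sets B hB
  refine ⟨k⁻¹ * g, G.mul_mem (G.inv_mem hk) hg, ?_⟩
  rw [Perm.coe_mul, image_comp, hgA, ← hkB, ← image_comp, ← Perm.coe_mul, inv_mul_cancel]
  simp

lemma transitive : Transitive G 3 := by
  intro a b ha hb
  obtain ⟨g, hg, h0, h1, h2⟩ := triples (a 0) (a 1) (a 2) (ha.ne (by decide))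
    (ha.ne (by decide)) (ha.ne (by decide))
  obtain ⟨k, hk, k0, k1, k2⟩ := triples (b 0) (b 1) (b 2) (hb.ne (by decide))
    (hb.ne (by decide)) (hb.ne (by decide))
  refine ⟨k⁻¹ * g, G.mul_mem (G.inv_mem hk) hg, ?_⟩
  intro i
  rw [Perm.mul_apply, Perm.inv_eq_iff_eq]
  fin_cases i
  · exact h0.trans k0.symm
  · exact h1.trans k1.symm
  · exact h2.trans k2.symm

lemma not_transitive : ¬ Transitive G 4 := by
  intro h
  have n1 : (some {0} : Pt) ≠ some {1} := fun h => by
    have := Finset.singleton_injective (Option.some_injective _ h)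
    norm_num at this
  have n2 : (some ∅ : Pt) ≠ some {0} := fun h => by
    have := Option.some_injective _ h
    exact absurd this.symm (Finset.singleton_ne_empty _)
  have n3 : (some ∅ : Pt) ≠ some {1} := fun h => by
    have := Option.some_injective _ h
    exact absurd this.symm (Finset.singleton_ne_empty _)
  have n4 : ∀ f : P, (none : Pt) ≠ some f := fun f => by simp
  have inj : ∀ u v w : P, (some u : Pt) ≠ some v → (some u : Pt) ≠ some w →
      (some v : Pt) ≠ some w → Function.Injective ![(none : Pt), some u, some v, some w] := by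
    intro u v w h1 h2 h3 i j hij
    fin_cases i <;> fin_cases j <;> simp_all
  obtain ⟨g, hg, hgi⟩ := h ![none, some ∅, some {0}, some {1}] ![none, some ∅, some {1}, some {0}]
    (inj _ _ _ n2 n3 n1) (inj _ _ _ n3 n2 n1.symm)
  have g0 : g none = none := hgi 0
  have g1 : g (some ∅) = some ∅ := hgi 1
  have g2 : g (some {0}) = some {1} := hgi 2
  have g3 : g (some {1}) = some {0} := hgi 3
  set B : Set P := {y | Agree (Ici 1) ∅ y} with hB
  have hball : Ball B := ⟨∅, Ici 1, isUpperSet_Ici 1, rfl⟩
  have hS : Split (some '' B) := ⟨B, hball, Or.inl rfl⟩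
  have hT : Split (g ⁻¹' (some '' B)) := hg.1 _ hS
  have m0 : (none : Pt) ∉ some '' B := by rintro ⟨y, _, hy⟩; exact absurd hy (by simp)
  have m1 : (some ∅ : Pt) ∈ some '' B := ⟨∅, fun p _ => Iff.rfl, rfl⟩
  have m2 : (some {0} : Pt) ∈ some '' B := by
    refine ⟨{0}, fun p hp => ?_, rfl⟩
    simp only [Finset.notMem_empty, Finset.mem_singleton, false_iff]
    intro h
    rw [h] at hp
    exact absurd hp (by simp)
  have m3 : (some {1} : Pt) ∉ some '' B := by
    rintro ⟨y, hy, hy'⟩
    rw [Option.some_injective _ hy'] at hy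
    exact absurd ((hy 1 (mem_Ici.2 le_rfl)).2 (Finset.mem_singleton_self _))
      (Finset.notMem_empty _)
  refine split_laminar hS hT (a := some ∅) (b := some {0}) (c := some {1}) (d := none)
    ⟨m1, ?_⟩ ⟨m2, ?_⟩ ⟨m3, ?_⟩ ⟨m0, ?_⟩
  · rw [mem_preimage, g1]; exact m1
  · rw [mem_preimage, g2]; exact m3
  · rw [mem_preimage, g3]; exact m2
  · rw [mem_preimage, g0]; exact m0

lemma no_linear : ¬ ∃ lt : Pt → Pt → Prop, IsLinearOrder lt ∧ PreservesPair2 G lt := by
  rintro ⟨lt, hlt, hG⟩
  obtain ⟨g, hg, g0, g1, _, g3, g4⟩ := exchange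
  have asym : ∀ x y, lt x y → ¬ lt y x := fun x y h h' => hlt.irrefl _ (hlt.trans _ _ _ h h')
  have n1 : (none : Pt) ≠ some {1} := by simp
  have n2 : (some ∅ : Pt) ≠ some {0} := fun h => by
    have := Option.some_injective _ h
    exact absurd this.symm (Finset.singleton_ne_empty _)
  rcases hG g hg with h | h
  · rcases hlt.total _ _ n2 with h1 | h1
    · have h2 := (h (some ∅) (some {0})).2 h1
      rw [g3, g4] at h2
      exact asym _ _ h1 h2
    · have h2 := (h (some {0}) (some ∅)).2 h1
      rw [g3, g4] at h2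
      exact asym _ _ h1 h2
  · rcases hlt.total _ _ n1 with h1 | h1
    · have h2 := (h (some {1}) none).2 h1
      rw [g0, g1] at h2
      exact asym _ _ h1 h2
    · have h2 := (h none (some {1})).2 h1
      rw [g0, g1] at h2
      exact asym _ _ h1 h2

lemma no_circular : ¬ ∃ C : Pt → Pt → Pt → Prop, IsCircularOrder C ∧ PreservesPair3 G C := by
  rintro ⟨C, hC, hG⟩
  obtain ⟨g, hg, g0, g1, g2, g3, g4⟩ := exchange
  have n0 : ∀ f : P, (none : Pt) ≠ some f := fun f => by simp
  have n2 : (some ∅ : Pt) ≠ some {0} := fun h => by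
    have := Option.some_injective _ h
    exact absurd this.symm (Finset.singleton_ne_empty _)
  have n3 : (some {1} : Pt) ≠ some {2} := fun h => by
    have := Finset.singleton_injective (Option.some_injective _ h)
    norm_num at this
  rcases hG g hg with h | h
  · rcases hC.total none (some ∅) (some {0}) (n0 _) n2 (n0 _) with h1 | h1
    · have h2 := (h none (some ∅) (some {0})).2 h1
      rw [g0, g3, g4] at h2
      exact hC.asymm _ _ _ h1 (hC.cyc _ _ _ h2)
    · have h2 := (h (some {0}) (some ∅) none).2 h1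
      rw [g0, g3, g4] at h2
      exact hC.asymm _ _ _ h1 (hC.cyc _ _ _ (hC.cyc _ _ _ h2))
  · rcases hC.total none (some {1}) (some {2}) (n0 _) n3 (n0 _) with h1 | h1
    · have h2 := (h (some {2}) (some {1}) none).2 h1
      rw [g0, g1, g2] at h2
      exact hC.asymm _ _ _ h1 h2
    · have h2 := (h none (some {1}) (some {2})).2 h1
      rw [g0, g1, g2] at h2
      exact hC.asymm _ _ _ h2 h1

/-- The statement of Q1: if `r ≥ 3` and an infinite permutation group is `(r + 2)`-homogeneous and
`r`-transitive but not `(r + 1)`-transitive, then `r = 3` and the group preserves a linear order or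
a circular order or a converse pair of linear or of circular orders. -/
def HomogeneityForcesOrder : Prop :=
  ∀ r : ℕ, 3 ≤ r → ∀ (X : Type) (_ : Infinite X) (G : Subgroup (Perm X)),
    Homogeneous G (r + 2) → Transitive G r → ¬ Transitive G (r + 1) →
      r = 3 ∧ ((∃ lt : X → X → Prop, IsLinearOrder lt ∧ PreservesPair2 G lt) ∨
        ∃ C : X → X → X → Prop, IsCircularOrder C ∧ PreservesPair3 G C)

/-- **Theorem.** There is a permutation group of a countably infinite set which is `5`-homogeneous
and `3`-transitive but not `4`-transitive, and which preserves no converse pair of linear orders and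
no converse pair of circular orders (in particular no linear and no circular order). So the answer
to Q1 is negative, already for `r = 3`. -/
theorem result :
    (∃ (X : Type) (_ : Infinite X) (_ : Countable X) (G : Subgroup (Perm X)),
      Homogeneous G 5 ∧ Transitive G 3 ∧ ¬ Transitive G 4 ∧
      (¬ ∃ lt : X → X → Prop, IsLinearOrder lt ∧ PreservesPair2 G lt) ∧
      (¬ ∃ C : X → X → X → Prop, IsCircularOrder C ∧ PreservesPair3 G C)) ∧
    ¬ HomogeneityForcesOrder := by
  have h1 : Infinite Pt := inferInstance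
  refine ⟨⟨Pt, h1, inferInstance, G, homogeneous, transitive, not_transitive, no_linear,
    no_circular⟩, fun h => ?_⟩
  rcases (h 3 le_rfl Pt h1 G homogeneous transitive not_transitive).2 with h2 | h2
  · exact no_linear h2
  · exact no_circular h2

end Pool.Agent.Results.MP_deb208_al.BoronTree
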